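import Pool.Agent.PLG.Stmts

set_option autoImplicit false

open Finset Module

namespace Pool.Agent.PLG.H50

theorem Mlt_mono {E : Type} [NormedAddCommGroup E] {f : ℂ →+ E} {V : AddSubgroup ℂ} {K K' w : ℝ}
    {x : ℂ} (h : Mlt f V K w x) (hK : K ≤ K') : Mlt f V K' w x := by
  obtain ⟨c, h1, h2, h3, h4⟩ := h
  exact ⟨c, h1, h2.trans hK, h3, h4.trans (mul_le_mul_of_nonneg_right hK (norm_nonneg _))⟩

theorem sp_lp_le (G : AddSubgroup ℂ) (t : ℝ) : sp (lp G t) ≤ sp G ⊓ sl t := by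
  unfold sp
  rw [Submodule.span_le]
  intro x hx
  exact ⟨le_sp hx.1, hx.2⟩

theorem bs_le_sp {E : Type} [NormedAddCommGroup E] {f : ℂ →+ E} {V : AddSubgroup ℂ} (h : Dsc f V)
    (r : ℝ) : bs f V r ≤ sp V := by
  unfold bs sp
  apply Submodule.span_mono
  intro x hx
  exact ((mem_bl h).mp hx).1

/-- a shortest nonzero element of a line -/
theorem shortest {E : Type} [NormedAddCommGroup E] {f : ℂ →+ E} {V : AddSubgroup ℂ} {ρ : ℝ}
    (h : Dsc f V) (hr : 1 ≤ finrank ℚ (bs f V ρ)) :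
    ∃ x ∈ V, x ≠ 0 ∧ ‖f x‖ ≤ ρ ∧ ∀ y ∈ V, y ≠ 0 → ‖f x‖ ≤ ‖f y‖ := by
  classical
  have hne : ((bl f V ρ).filter (fun x => x ≠ 0)).Nonempty := by
    by_contra hne
    rw [Finset.not_nonempty_iff_eq_empty, Finset.filter_eq_empty_iff] at hne
    have h1 : bs f V ρ = ⊥ := by
      unfold bs
      rw [Submodule.span_eq_bot]
      intro x hx
      have := hne hx
      exact not_not.mp this
    rw [h1, finrank_bot] at hr
    omega
  obtain ⟨x, hx, hmin⟩ := Finset.exists_min_image _ (fun x => ‖f x‖) hne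
  rw [Finset.mem_filter, mem_bl h] at hx
  refine ⟨x, hx.1.1, hx.2, hx.1.2, fun y hy hy0 => ?_⟩
  by_cases hyρ : ‖f y‖ ≤ ρ
  · apply hmin y
    rw [Finset.mem_filter, mem_bl h]
    exact ⟨⟨hy, hyρ⟩, hy0⟩
  · exact hx.1.2.trans (not_le.mp hyρ).le

/-- the algebra is as large as the line -/
theorem adj_fin {G : AddSubgroup ℂ} {W : Finset ℝ} {t₁ t₂ : ℝ} {e : ℕ} {x : ℂ}
    (hfin : FiniteDimensional ℚ (sp G)) (hrk : finrank ℚ (sp G ⊓ sl t₁ : Submodule ℚ ℂ) = e)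
    (hx : x ∈ sp G ⊓ sl t₁) (hx0 : x ≠ 0)
    (hin : ∀ q ∈ Algebra.adjoin ℚ (Rat4 W t₁ t₂), ((q : ℝ) : ℂ) * x ∈ sp G)
    (hon : ∀ y ∈ sp G ⊓ sl t₁, ∃ q ∈ Algebra.adjoin ℚ (Rat4 W t₁ t₂), ((q : ℝ) : ℂ) * x = y) :
    FiniteDimensional ℚ (Algebra.adjoin ℚ (Rat4 W t₁ t₂)) ∧
      finrank ℚ (Algebra.adjoin ℚ (Rat4 W t₁ t₂)) = e := by
  have hsl : ∀ q : ℝ, ((q : ℝ) : ℂ) * x ∈ sl t₁ := by
    intro q
    rw [mem_sl, Complex.im_ofReal_mul, Complex.re_ofReal_mul, (mem_sl.mp hx.2)]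
    ring
  let ψ : Algebra.adjoin ℚ (Rat4 W t₁ t₂) →ₗ[ℚ] (sp G ⊓ sl t₁ : Submodule ℚ ℂ) :=
    { toFun := fun q => ⟨((q : ℝ) : ℂ) * x, hin q q.2, hsl q⟩
      map_add' := by
        intro p q
        apply Subtype.ext
        simp only [Subalgebra.coe_add, Complex.ofReal_add, Submodule.coe_add]
        ring
      map_smul' := by
        intro r q
        apply Subtype.ext
        simp only [Subalgebra.coe_smul, Submodule.coe_smul, RingHom.id_apply]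
        rw [Rat.smul_def, Rat.smul_def]
        push_cast
        ring }
  have hinj : Function.Injective ψ := by
    intro p q h
    have h1 : ((p : ℝ) : ℂ) * x = ((q : ℝ) : ℂ) * x := congrArg Subtype.val h
    have h2 := mul_right_cancel₀ hx0 h1
    apply Subtype.ext
    exact_mod_cast h2
  have hsur : Function.Surjective ψ := by
    intro y
    obtain ⟨q, hq, hqy⟩ := hon y y.2
    exact ⟨⟨q, hq⟩, Subtype.ext hqy⟩
  let Ψ := LinearEquiv.ofBijective ψ ⟨hinj, hsur⟩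
  have hf : FiniteDimensional ℚ (sp G ⊓ sl t₁ : Submodule ℚ ℂ) :=
    Submodule.finiteDimensional_inf_left _ _
  refine ⟨Module.Finite.equiv Ψ.symm, ?_⟩
  rw [Ψ.finrank_eq, hrk]

theorem bck (hbla : BlaStmt) (halg : AlgStmt) (hmul : MulStmt) (hwrd : WrdStmt) (hgen : GenStmt)
    (hpro : ProStmt) (hpol : PolStmt) (hsep : SepStmt) : BckStmt := by
  classical
  intro E _ _ f G W e A ρ j B K hb hK hKρ hA
  obtain ⟨hN, hTwo, hsl⟩ := hbla E f G W e ρ j B hb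
  set H : ℝ := 9 * B * W.card with hH
  have hH1 : 1 ≤ H := hN.hH
  have hK1 : 1 ≤ K := by
    rw [hK]
    have : (1 : ℝ) ≤ H ^ 4 := one_le_pow₀ hH1
    linarith
  have hcard : 1 < W.card := by
    have h1 := hb.large
    have h2 := hb.hB
    have h3 : (1 : ℝ) < W.card := by linarith
    exact_mod_cast h3
  obtain ⟨t₁, ht₁, t₂, ht₂, hne⟩ := Finset.one_lt_card.mp hcard
  have hd : Dsc f (lp G t₁) := hb.dsc.lp t₁
  have hrk1 : 1 ≤ finrank ℚ (bs f (lp G t₁) ρ) := by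
    rw [hb.rank t₁ ht₁]
    exact hb.he
  obtain ⟨x, hxV, hx0, hxρ, hmin⟩ := shortest hd hrk1
  have hfx : 0 < ‖f x‖ := norm_pos hd hxV hx0
  have hle := sp_lp_le G t₁
  have hfG : FiniteDimensional ℚ (sp G) := hb.fin
  have hfl : FiniteDimensional ℚ (sp G ⊓ sl t₁ : Submodule ℚ ℂ) :=
    Submodule.finiteDimensional_inf_left _ _
  have hfV : FiniteDimensional ℚ (sp (lp G t₁)) := Submodule.finiteDimensional_of_le hle
  have hrV : finrank ℚ (sp (lp G t₁)) ≤ e := by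
    rw [← (hsl t₁ ht₁).2]
    exact Submodule.finrank_mono hle
  have hxsp : x ∈ sp G ⊓ sl t₁ := hle (le_sp hxV)
  -- the size of j
  have hj : ‖f x‖ ^ e * j ≤ 3 ^ e := by
    have h1 := hsep E f (lp G t₁) 1 ‖f x‖ e hd zero_le_one hfx hmin
      ((Submodule.finrank_mono (bs_le_sp hd 1)).trans hrV)
    have h2 := hb.lines t₁ ht₁
    have h3 : (1 : ℝ) + 2 * 1 / ‖f x‖ ≤ 3 / ‖f x‖ := by
      have h5 : 1 ≤ 1 / ‖f x‖ := by
        rw [le_div_iff₀ hfx]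
        linarith [hxρ, hb.hρ]
      have h6 : 3 / ‖f x‖ = 1 / ‖f x‖ + 2 * 1 / ‖f x‖ := by ring
      rw [h6]
      linarith
    have h4 : j ≤ (3 / ‖f x‖) ^ e := by
      refine h2.trans (h1.trans ?_)
      exact pow_le_pow_left₀ (by positivity) h3 e
    calc ‖f x‖ ^ e * j ≤ ‖f x‖ ^ e * (3 / ‖f x‖) ^ e :=
          mul_le_mul_of_nonneg_left h4 (by positivity)
      _ = 3 ^ e := by
          rw [← mul_pow]
          congr 1
          field_simp
  -- powers of K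
  have hKf : ∀ n ≤ e * e, K ^ (n + 1) * ‖f x‖ ≤ 1 := by
    intro n hn
    refine le_trans ?_ hKρ
    exact mul_le_mul (pow_le_pow_right₀ hK1 (by omega)) hxρ hfx.le (by positivity)
  have hKx : 256 * H ^ 4 * ‖f x‖ ≤ 1 := by
    have h1 := hKf 0 (Nat.zero_le _)
    rw [zero_add, pow_one, hK] at h1
    exact h1
  -- the algebra
  have hon := hpro E f G W e ρ j B t₁ t₂ x hb ht₁ ht₂ hne hxV hx0 hKx
  have hin : ∀ q ∈ Algebra.adjoin ℚ (Rat4 W t₁ t₂), ((q : ℝ) : ℂ) * x ∈ sp G := fun q hq =>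
    halg (sp G) W t₁ t₂ hTwo ht₁ ht₂ hne q hq t₁ ht₁ x hxsp
  obtain ⟨hFf, hFr⟩ := adj_fin hfG (hsl t₁ ht₁).2 hxsp hx0 hin hon
  obtain ⟨w, hwi, hw⟩ := hgen (Rat4 W t₁ t₂) e hFf hFr
  have hstep : ∀ q ∈ Rat4 W t₁ t₂, ∀ y ∈ lp G t₁, K * ‖f y‖ ≤ 1 → Mlt f (lp G t₁) K q y := by
    intro q hq y hy hKy
    rw [hK] at hKy ⊢
    exact hmul E f G W j H t₁ t₂ q hN ht₁ ht₂ hne hq y hy hKy
  have hword : ∀ l : List ℝ, (∀ q ∈ l, q ∈ Rat4 W t₁ t₂) → l.length ≤ e * e →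
      Mlt f (lp G t₁) (K ^ l.length) l.prod x := by
    intro l hl hlen
    exact hwrd E f (lp G t₁) (Rat4 W t₁ t₂) K hK1 hstep l hl x hxV (hKf _ hlen)
  have hout : ∀ i, ∃ c : ℕ, 1 ≤ c ∧ (c : ℝ) ≤ K ^ e ∧ Alg e A (w i) ∧
      (((c : ℝ) * w i : ℝ) : ℂ) * x ∈ G ∧ ‖f ((((c : ℝ) * w i : ℝ) : ℂ) * x)‖ ≤ K ^ e * ‖f x‖ := by
    intro i
    obtain ⟨l, hlen, hlQ, hlw⟩ := hw i
    have halgi : Alg e A (w i) := by
      refine hpol E f (lp G t₁) e A (K ^ (e * e)) (w i) x hd hfV hrV (one_le_pow₀ hK1) hxV hx0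
        hmin ?_ hA
      intro q hq
      have h1 : (List.replicate q l).flatten.length ≤ e * e := by
        rw [List.length_flatten, List.map_replicate, List.sum_replicate, smul_eq_mul]
        exact Nat.mul_le_mul hq hlen
      have h2 : ∀ p ∈ (List.replicate q l).flatten, p ∈ Rat4 W t₁ t₂ := by
        intro p hp
        rw [List.mem_flatten] at hp
        obtain ⟨l', hl', hpl'⟩ := hp
        rw [(List.mem_replicate.mp hl').2] at hpl'
        exact hlQ p hpl'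
      have h3 := hword _ h2 h1
      have h4 : (List.replicate q l).flatten.prod = w i ^ q := by
        rw [List.prod_flatten, List.map_replicate, List.prod_replicate, hlw]
      rw [h4] at h3
      exact Mlt_mono h3 (pow_le_pow_right₀ hK1 h1)
    have hle' : l.length ≤ e * e := hlen.trans (Nat.le_mul_of_pos_left e hb.he)
    have h5 := hword l hlQ hle'
    rw [← hlw] at h5
    obtain ⟨c, hc1, hc2, hc3, hc4⟩ := Mlt_mono h5 (pow_le_pow_right₀ hK1 hlen)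
    exact ⟨c, hc1, hc2, halgi, hc3.1, hc4⟩
  choose c hc1 hc2 hc3 hc4 hc5 using hout
  exact ⟨t₁, ht₁, x, hxV, hx0, hj, w, c, hwi, fun i => ⟨hc1 i, hc2 i, hc3 i, hc4 i, hc5 i⟩⟩

end Pool.Agent.PLG.H50
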