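import Pool.Agent.PLG.Stmts

set_option autoImplicit false

open Finset

namespace Pool.Agent.PLG.H50

/-- sorting a finite set of real numbers -/
theorem sorting (W : Finset ℝ) : ∃ τ : ℕ → ℝ, (∀ i, i < W.card → τ i ∈ W) ∧
    ∀ i, i + 1 < W.card → τ i < τ (i + 1) := by
  refine ⟨fun i => if h : i < W.card then W.orderEmbOfFin rfl ⟨i, h⟩ else 0, ?_, ?_⟩
  · intro i hi
    simp only [dif_pos hi]
    exact Finset.orderEmbOfFin_mem W rfl _
  · intro i hi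
    have hi' : i < W.card := by omega
    simp only [dif_pos hi, dif_pos hi']
    apply (W.orderEmbOfFin rfl).strictMono
    rw [Fin.mk_lt_mk]
    omega

/-- the counting part -/
theorem prc_count {E : Type} [NormedAddCommGroup E] [NormedSpace ℝ E] (hsol : SolStmt)
    (f : ℂ →+ E) (G : AddSubgroup ℂ) (π : ℂ →+ ℂ) (a b : ℝ) (s : ℝ) (hs : s = 1 ∨ s = -1)
    (hG : Dsc f G) (n : ℕ) (τ : ℕ → ℝ) (Y U : ℕ → Finset ℂ)
    (hτ : ∀ i < n, τ i < τ (i + 1)) (hab : ∀ i ≤ n, a ≤ τ i ∧ τ i ≤ b)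
    (hY : ∀ i ≤ n, ∀ y ∈ Y i, y ∈ lp G (τ i) ∧ ‖f y‖ ≤ 1 ∧ 0 < y.re ∧
      (π y).im = τ i * (π y).re ∧ 0 < s * (π y).re)
    (hYi : ∀ i ≤ n, Set.InjOn π (Y i))
    (hU : ∀ i ≤ n, ∀ u ∈ U i, u ∈ lp G (τ i) ∧ ‖f u‖ ≤ 2 ∧ 0 < u.re ∧ π u = 0) :
    (∑ p ∈ range n, (U p).card * (U (p + 1)).card) *
      (∑ q ∈ range n, (Y q).card * (Y (q + 1)).card) ≤ (cone f G 6 a b).card := by
  classical
  have hs0 : (s : ℂ) ≠ 0 := by
    rcases hs with h | h <;> rw [h] <;> norm_num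
  set P1 : Finset (Σ _ : ℕ, ℂ × ℂ) := (range n).sigma (fun p => U p ×ˢ U (p + 1)) with hP1
  set P2 : Finset (Σ _ : ℕ, ℂ × ℂ) := (range n).sigma (fun q => Y q ×ˢ Y (q + 1)) with hP2
  have hc1 : P1.card = ∑ p ∈ range n, (U p).card * (U (p + 1)).card := by
    rw [hP1, Finset.card_sigma]
    refine Finset.sum_congr rfl fun p _ => ?_
    rw [Finset.card_product]
  have hc2 : P2.card = ∑ q ∈ range n, (Y q).card * (Y (q + 1)).card := by
    rw [hP2, Finset.card_sigma]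
    refine Finset.sum_congr rfl fun p _ => ?_
    rw [Finset.card_product]
  rw [← hc1, ← hc2, ← Finset.card_product]
  have hm1 : ∀ A : Σ _ : ℕ, ℂ × ℂ, A ∈ P1 → A.1 < n ∧ A.2.1 ∈ U A.1 ∧ A.2.2 ∈ U (A.1 + 1) := by
    intro A hA
    rw [hP1, Finset.mem_sigma, Finset.mem_product, Finset.mem_range] at hA
    exact hA
  have hm2 : ∀ A : Σ _ : ℕ, ℂ × ℂ, A ∈ P2 → A.1 < n ∧ A.2.1 ∈ Y A.1 ∧ A.2.2 ∈ Y (A.1 + 1) := by
    intro A hA
    rw [hP2, Finset.mem_sigma, Finset.mem_product, Finset.mem_range] at hA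
    exact hA
  refine Finset.card_le_card_of_injOn
    (fun A => A.1.2.1 + A.1.2.2 + A.2.2.1 + A.2.2.2) ?_ ?_
  · intro A hA
    rw [Finset.mem_coe, Finset.mem_product] at hA
    obtain ⟨h1, h2, h3⟩ := hm1 _ hA.1
    obtain ⟨h4, h5, h6⟩ := hm2 _ hA.2
    have u1 := hU _ h1.le _ h2
    have u2 := hU _ (by omega : A.1.1 + 1 ≤ n) _ h3
    have y1 := hY _ h4.le _ h5
    have y2 := hY _ (by omega : A.2.1 + 1 ≤ n) _ h6
    have e1 := hab _ h1.le
    have e2 := hab _ (by omega : A.1.1 + 1 ≤ n)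
    have e3 := hab _ h4.le
    have e4 := hab _ (by omega : A.2.1 + 1 ≤ n)
    have hu1 := (mem_lp.mp u1.1)
    have hu2 := (mem_lp.mp u2.1)
    have hy1 := (mem_lp.mp y1.1)
    have hy2 := (mem_lp.mp y2.1)
    rw [Finset.mem_coe, mem_cone hG]
    refine ⟨G.add_mem (G.add_mem (G.add_mem hu1.1 hu2.1) hy1.1) hy2.1, ?_, ?_, ?_, ?_⟩
    · rw [map_add, map_add, map_add]
      have n1 := norm_add_le (f A.1.2.1 + f A.1.2.2 + f A.2.2.1) (f A.2.2.2)
      have n2 := norm_add_le (f A.1.2.1 + f A.1.2.2) (f A.2.2.1)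
      have n3 := norm_add_le (f A.1.2.1) (f A.1.2.2)
      linarith [u1.2.1, u2.2.1, y1.2.1, y2.2.1]
    · simp only [Complex.add_re]
      linarith [u1.2.2.1, u2.2.2.1, y1.2.2.1, y2.2.2.1]
    · simp only [Complex.add_re, Complex.add_im]
      rw [hu1.2, hu2.2, hy1.2, hy2.2]
      have m1 := mul_le_mul_of_nonneg_right e1.1 u1.2.2.1.le
      have m2 := mul_le_mul_of_nonneg_right e2.1 u2.2.2.1.le
      have m3 := mul_le_mul_of_nonneg_right e3.1 y1.2.2.1.le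
      have m4 := mul_le_mul_of_nonneg_right e4.1 y2.2.2.1.le
      linarith
    · simp only [Complex.add_re, Complex.add_im]
      rw [hu1.2, hu2.2, hy1.2, hy2.2]
      have m1 := mul_le_mul_of_nonneg_right e1.2 u1.2.2.1.le
      have m2 := mul_le_mul_of_nonneg_right e2.2 u2.2.2.1.le
      have m3 := mul_le_mul_of_nonneg_right e3.2 y1.2.2.1.le
      have m4 := mul_le_mul_of_nonneg_right e4.2 y2.2.2.1.le
      linarith
  · intro A hA A' hA' heq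
    rw [Finset.mem_coe, Finset.mem_product] at hA hA'
    obtain ⟨h1, h2, h3⟩ := hm1 _ hA.1
    obtain ⟨h4, h5, h6⟩ := hm2 _ hA.2
    obtain ⟨h1', h2', h3'⟩ := hm1 _ hA'.1
    obtain ⟨h4', h5', h6'⟩ := hm2 _ hA'.2
    have heq' : A.1.2.1 + A.1.2.2 + A.2.2.1 + A.2.2.2 =
        A'.1.2.1 + A'.1.2.2 + A'.2.2.1 + A'.2.2.2 := heq
    have hπ : (s : ℂ) * π A.2.2.1 + (s : ℂ) * π A.2.2.2 =
        (s : ℂ) * π A'.2.2.1 + (s : ℂ) * π A'.2.2.2 := by
      have h7 := congrArg π heq'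
      simp only [map_add] at h7
      rw [(hU _ h1.le _ h2).2.2.2, (hU _ (by omega : A.1.1 + 1 ≤ n) _ h3).2.2.2,
        (hU _ h1'.le _ h2').2.2.2, (hU _ (by omega : A'.1.1 + 1 ≤ n) _ h3').2.2.2] at h7
      rw [← mul_add, ← mul_add]
      congr 1
      simpa using h7
    have hS : ∀ i ≤ n, ∀ x ∈ (Y i).image (fun y => (s : ℂ) * π y), x.im = τ i * x.re ∧ 0 < x.re := by
      intro i hi x hx
      obtain ⟨y, hy, rfl⟩ := Finset.mem_image.mp hx
      have h7 := hY i hi y hy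
      rw [Complex.re_ofReal_mul, Complex.im_ofReal_mul, h7.2.2.2.1]
      exact ⟨by ring, h7.2.2.2.2⟩
    have k1 := hsol n τ (fun i => (Y i).image (fun y => (s : ℂ) * π y)) hτ hS A.2.1 A'.2.1 h4 h4'
      _ (Finset.mem_image_of_mem _ h5) _ (Finset.mem_image_of_mem _ h6)
      _ (Finset.mem_image_of_mem _ h5') _ (Finset.mem_image_of_mem _ h6') hπ
    obtain ⟨k2, k3, k4⟩ := k1
    have k5 := mul_left_cancel₀ hs0 k3
    have k6 := mul_left_cancel₀ hs0 k4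
    have k7 : A.2.2.1 = A'.2.2.1 := hYi _ h4.le h5 (by rw [k2]; exact h5') k5
    have k8 : A.2.2.2 = A'.2.2.2 :=
      hYi _ (by omega : A.2.1 + 1 ≤ n) h6 (by rw [k2]; exact h6') k6
    have hS' : ∀ i ≤ n, ∀ x ∈ U i, x.im = τ i * x.re ∧ 0 < x.re := by
      intro i hi x hx
      have h7 := hU i hi x hx
      exact ⟨(mem_lp.mp h7.1).2, h7.2.2.1⟩
    have k9 : A.1.2.1 + A.1.2.2 = A'.1.2.1 + A'.1.2.2 := by
      rw [k7, k8] at heq'
      exact add_right_cancel (add_right_cancel heq')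
    obtain ⟨l1, l2, l3⟩ := hsol n τ U hτ hS' A.1.1 A'.1.1 h1 h1' _ h2 _ h3 _ h2' _ h3' k9
    obtain ⟨⟨p, u, u'⟩, ⟨q, y, y'⟩⟩ := A
    obtain ⟨⟨p', v, v'⟩, ⟨q', z, z'⟩⟩ := A'
    simp only at k2 k7 k8 l1 l2 l3
    subst k2 k7 k8 l1 l2 l3
    rfl

theorem prc (hsol : SolStmt) : PrcStmt := by
  classical
  intro E _ _ f G W π a b j hG hW hj hab hF
  have hF' : ∀ t : ℝ, ∃ (σ : ℝ) (Y U : Finset ℂ), t ∈ W → (σ = 1 ∨ σ = -1) ∧
    (∀ y ∈ Y, y ∈ lp G t ∧ ‖f y‖ ≤ 1 ∧ 0 < y.re ∧ (π y).im = t * (π y).re ∧ 0 < σ * (π y).re) ∧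
    Set.InjOn π Y ∧ (∀ u ∈ U, u ∈ lp G t ∧ ‖f u‖ ≤ 2 ∧ 0 < u.re ∧ π u = 0) ∧
    j ≤ 18 * ((Y.card : ℝ) * U.card) := by
    intro t
    by_cases ht : t ∈ W
    · obtain ⟨σ, hσ, Y, U, h1, h2, h3, h4⟩ := hF t ht
      exact ⟨σ, Y, U, fun _ => ⟨hσ, h1, h2, h3, h4⟩⟩
    · exact ⟨1, ∅, ∅, fun h => absurd h ht⟩
  choose σ Y U hF' using hF'
  -- one sign
  obtain ⟨s, hs, W', hW'W, hW's, hW'c⟩ : ∃ s : ℝ, (s = 1 ∨ s = -1) ∧ ∃ W' ⊆ W,
      (∀ t ∈ W', σ t = s) ∧ W.card ≤ 2 * W'.card := by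
    have h1 := Finset.card_filter_add_card_filter_not (s := W) (fun t => σ t = 1)
    by_cases h2 : W.card ≤ 2 * (W.filter (fun t => σ t = 1)).card
    · exact ⟨1, Or.inl rfl, _, Finset.filter_subset _ _, fun t ht => (Finset.mem_filter.mp ht).2,
        h2⟩
    · refine ⟨-1, Or.inr rfl, W.filter (fun t => ¬ σ t = 1), Finset.filter_subset _ _, ?_, ?_⟩
      · intro t ht
        rw [Finset.mem_filter] at ht
        exact (hF' t ht.1).1.resolve_left ht.2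
      · omega
  obtain ⟨τ, hτm, hτ⟩ := sorting W'
  obtain ⟨n, hn⟩ : ∃ n, W'.card = n + 1 := ⟨W'.card - 1, by omega⟩
  have hmem : ∀ i ≤ n, τ i ∈ W' := fun i hi => hτm i (by omega)
  have hcount := prc_count hsol f G π a b s hs hG n τ (fun i => Y (τ i)) (fun i => U (τ i))
    (fun i hi => hτ i (by omega)) (fun i hi => hab _ (hW'W (hmem i hi)))
    (by
      intro i hi y hy
      have h1 := (hF' _ (hW'W (hmem i hi))).2.1 y hy
      rw [hW's _ (hmem i hi)] at h1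
      exact h1)
    (fun i hi => (hF' _ (hW'W (hmem i hi))).2.2.1)
    (fun i hi => (hF' _ (hW'W (hmem i hi))).2.2.2.1)
  -- Cauchy-Schwarz
  set α : ℕ → ℝ := fun i => ((Y (τ i)).card : ℝ) * (Y (τ (i + 1))).card with hα
  set β : ℕ → ℝ := fun i => ((U (τ i)).card : ℝ) * (U (τ (i + 1))).card with hβ
  have hα0 : ∀ i, 0 ≤ α i := fun i => by rw [hα]; positivity
  have hβ0 : ∀ i, 0 ≤ β i := fun i => by rw [hβ]; positivity
  have hcount' : (∑ i ∈ range n, α i) * (∑ i ∈ range n, β i) ≤ ((cone f G 6 a b).card : ℝ) := by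
    have h1 : (((∑ p ∈ range n, (U (τ p)).card * (U (τ (p + 1))).card) *
      (∑ q ∈ range n, (Y (τ q)).card * (Y (τ (q + 1))).card) : ℕ) : ℝ) ≤
      ((cone f G 6 a b).card : ℝ) := by exact_mod_cast hcount
    push_cast at h1
    rw [mul_comm]
    exact h1
  have hcs := Finset.sum_mul_sq_le_sq_mul_sq (range n) (fun i => Real.sqrt (α i))
    (fun i => Real.sqrt (β i))
  have h1 : ∑ i ∈ range n, Real.sqrt (α i) ^ 2 = ∑ i ∈ range n, α i :=
    Finset.sum_congr rfl fun i _ => Real.sq_sqrt (hα0 i)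
  have h2 : ∑ i ∈ range n, Real.sqrt (β i) ^ 2 = ∑ i ∈ range n, β i :=
    Finset.sum_congr rfl fun i _ => Real.sq_sqrt (hβ0 i)
  rw [h1, h2] at hcs
  have h3 : (n : ℝ) * (j / 18) ≤ ∑ i ∈ range n, Real.sqrt (α i) * Real.sqrt (β i) := by
    have h4 : ∀ i ∈ range n, j / 18 ≤ Real.sqrt (α i) * Real.sqrt (β i) := by
      intro i hi
      rw [Finset.mem_range] at hi
      rw [← Real.sqrt_mul (hα0 i)]
      apply Real.le_sqrt_of_sq_le
      have e1 := (hF' _ (hW'W (hmem i hi.le))).2.2.2.2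
      have e2 := (hF' _ (hW'W (hmem (i + 1) (by omega)))).2.2.2.2
      have e3 : j / 18 ≤ ((Y (τ i)).card : ℝ) * (U (τ i)).card := by linarith
      have e4 : j / 18 ≤ ((Y (τ (i + 1))).card : ℝ) * (U (τ (i + 1))).card := by linarith
      have e5 : 0 ≤ j / 18 := by positivity
      calc (j / 18) ^ 2 = (j / 18) * (j / 18) := sq _
        _ ≤ (((Y (τ i)).card : ℝ) * (U (τ i)).card) *
            (((Y (τ (i + 1))).card : ℝ) * (U (τ (i + 1))).card) :=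
            mul_le_mul e3 e4 e5 (by positivity)
        _ = α i * β i := by rw [hα, hβ]; ring
    have h5 := Finset.card_nsmul_le_sum (range n) _ _ h4
    rw [Finset.card_range, nsmul_eq_mul] at h5
    exact h5
  have h6 : ((n : ℝ) * (j / 18)) ^ 2 ≤ ((cone f G 6 a b).card : ℝ) := by
    refine le_trans ?_ (hcs.trans hcount')
    exact pow_le_pow_left₀ (by positivity) h3 2
  have h7 : (W.card : ℝ) ≤ 4 * n := by
    have : W.card ≤ 4 * n := by omega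
    exact_mod_cast this
  have h8 : ((W.card : ℝ) * j) ^ 2 ≤ (4 * n * j) ^ 2 := by
    refine pow_le_pow_left₀ (by positivity) ?_ 2
    exact mul_le_mul_of_nonneg_right h7 hj
  calc ((W.card : ℝ) * j) ^ 2 ≤ (4 * n * j) ^ 2 := h8
    _ = 5184 * ((n : ℝ) * (j / 18)) ^ 2 := by ring
    _ ≤ 5184 * ((cone f G 6 a b).card : ℝ) := mul_le_mul_of_nonneg_left h6 (by norm_num)

end Pool.Agent.PLG.H50
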