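import Pool.Agent.PLG.Stmts

set_option autoImplicit false

open Finset

namespace Pool.Agent.PLG.H50

/-- the polynomial with given coefficients -/
noncomputable def mk (e : ℕ) (c : Fin (e + 1) → ℤ) : Polynomial ℤ :=
  ∑ i, Polynomial.C (c i) * Polynomial.X ^ (i : ℕ)

theorem deg_mk (e : ℕ) (c : Fin (e + 1) → ℤ) : (mk e c).natDegree ≤ e := by
  unfold mk
  refine Polynomial.natDegree_sum_le_of_forall_le _ _ fun i _ => ?_
  refine (Polynomial.natDegree_C_mul_X_pow_le _ _).trans ?_
  exact Nat.lt_succ_iff.mp i.2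

theorem rts : RtsStmt := by
  classical
  intro e A
  refine ⟨(Fintype.piFinset fun _ : Fin (e + 1) => Finset.Icc (-(A : ℤ)) A).biUnion
    (fun c => ((mk e c).map (Int.castRingHom ℝ)).roots.toFinset), ?_, ?_⟩
  · refine Finset.card_biUnion_le.trans ?_
    have h1 : ∀ c ∈ (Fintype.piFinset fun _ : Fin (e + 1) => Finset.Icc (-(A : ℤ)) A),
        (((mk e c).map (Int.castRingHom ℝ)).roots.toFinset).card ≤ e := by
      intro c _
      refine (Multiset.toFinset_card_le _).trans ?_
      refine (Polynomial.card_roots' _).trans ?_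
      exact Polynomial.natDegree_map_le.trans (deg_mk e c)
    refine (Finset.sum_le_card_nsmul _ _ _ h1).trans ?_
    rw [Fintype.card_piFinset, smul_eq_mul, mul_comm]
    refine Nat.mul_le_mul_left _ ?_
    rw [Finset.prod_const, Finset.card_univ, Fintype.card_fin, Int.card_Icc]
    have : ((A : ℤ) + 1 - -(A : ℤ)).toNat = 2 * A + 1 := by omega
    rw [this]
  · intro w hw
    obtain ⟨p, hp0, hpd, hpc, hpw⟩ := hw
    rw [Finset.mem_biUnion]
    refine ⟨fun i => p.coeff i, ?_, ?_⟩
    · rw [Fintype.mem_piFinset]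
      intro i
      rw [Finset.mem_Icc]
      exact abs_le.mp (hpc i)
    · have h1 : mk e (fun i => p.coeff i) = p := by
        unfold mk
        rw [Fin.sum_univ_eq_sum_range (fun i => Polynomial.C (p.coeff i) * Polynomial.X ^ i)]
        exact (Polynomial.as_sum_range_C_mul_X_pow' p (Nat.lt_succ_of_le hpd)).symm
      rw [h1, Multiset.mem_toFinset, Polynomial.mem_roots]
      · rw [Polynomial.IsRoot, Polynomial.eval_map]
        exact hpw
      · intro h
        apply hp0
        exact (Polynomial.map_eq_zero_iff (RingHom.injective_int _)).mp h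

end Pool.Agent.PLG.H50
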